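import Pool.Agent.QSX.StmtsB

/-!
# QSX, row ZER: an exact zero near an almost zero
-/

set_option autoImplicit false

namespace Pool.Agent.QSX.H83

open Finset Pool.Agent.QSX

/-- The value of a polynomial near a point. -/
theorem eval_add_eq (p : Polynomial ℝ) (D : ℕ) (hp : p.natDegree ≤ D) (y t : ℝ) :
    p.eval (y + t) = p.eval y + p.derivative.eval y * t +
      t ^ 2 * ∑ k ∈ range D, (Polynomial.taylor y p).coeff (k + 2) * t ^ k := by
  have h1 : p.eval (y + t) = (Polynomial.taylor y p).eval t := by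
    rw [Polynomial.taylor_eval, add_comm]
  rw [h1, Polynomial.eval_eq_sum_range' (n := D + 2) (by
    rw [Polynomial.natDegree_taylor]; omega), Finset.sum_range_succ', Finset.sum_range_succ']
  rw [Polynomial.taylor_coeff_zero, zero_add, Polynomial.taylor_coeff_one, pow_zero, pow_one,
    mul_one, Finset.mul_sum]
  have h2 : ∑ k ∈ range D, (Polynomial.taylor y p).coeff (k + 1 + 1) * t ^ (k + 1 + 1) =
      ∑ k ∈ range D, t ^ 2 * ((Polynomial.taylor y p).coeff (k + 2) * t ^ k) := by
    apply Finset.sum_congr rfl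
    intro k _
    ring
  rw [h2]
  ring

theorem sum_bound (p : Polynomial ℝ) (D : ℕ) (y t : ℝ) (ht : |t| ≤ 1) :
    |∑ k ∈ range D, (Polynomial.taylor y p).coeff (k + 2) * t ^ k| ≤
      ∑ k ∈ range D, |(Polynomial.taylor y p).coeff (k + 2)| := by
  refine (Finset.abs_sum_le_sum_abs _ _).trans (Finset.sum_le_sum ?_)
  intro k _
  rw [abs_mul, abs_pow]
  exact mul_le_of_le_one_right (abs_nonneg _) (pow_le_one₀ (abs_nonneg _) ht)

/-- A zero near an almost zero. -/
theorem core (p : Polynomial ℝ) (D : ℕ) (hp : p.natDegree ≤ D) (y δ : ℝ) (h0 : 0 < δ)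
    (h1 : δ ≤ 1)
    (h : |p.eval y| + (∑ k ∈ range D, |(Polynomial.taylor y p).coeff (k + 2)|) * δ ^ 2 <
      |p.derivative.eval y| * δ) : ∃ z, |z - y| ≤ δ ∧ p.eval z = 0 := by
  set M := ∑ k ∈ range D, |(Polynomial.taylor y p).coeff (k + 2)| with hM
  set a := p.derivative.eval y with ha
  set b := p.eval y with hb
  have e1 := eval_add_eq p D hp y δ
  have e2 := eval_add_eq p D hp y (-δ)
  have b1 := sum_bound p D y δ (by rw [abs_of_pos h0]; exact h1)
  have b2 := sum_bound p D y (-δ) (by rw [abs_neg, abs_of_pos h0]; exact h1)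
  rw [← hM] at b1 b2
  rw [← ha, ← hb] at e1 e2
  set u := ∑ k ∈ range D, (Polynomial.taylor y p).coeff (k + 2) * δ ^ k
  set v := ∑ k ∈ range D, (Polynomial.taylor y p).coeff (k + 2) * (-δ) ^ k
  have hδ2 : 0 < δ ^ 2 := by positivity
  have u1 : |δ ^ 2 * u| ≤ M * δ ^ 2 := by
    rw [abs_mul, abs_of_pos hδ2, mul_comm]
    exact mul_le_mul_of_nonneg_right b1 hδ2.le
  have v1 : |(-δ) ^ 2 * v| ≤ M * δ ^ 2 := by
    rw [neg_sq, abs_mul, abs_of_pos hδ2, mul_comm]
    exact mul_le_mul_of_nonneg_right b2 hδ2.le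
  have hcont : ContinuousOn (fun x => p.eval x) (Set.uIcc (y + -δ) (y + δ)) :=
    p.continuous.continuousOn
  have hiv := intermediate_value_uIcc hcont
  have hz : (0 : ℝ) ∈ Set.uIcc (p.eval (y + -δ)) (p.eval (y + δ)) := by
    rw [Set.mem_uIcc, e1, e2]
    have hb1 := abs_le.1 (le_refl |b|)
    have hu1 := abs_le.1 u1
    have hv1 := abs_le.1 v1
    rcases le_or_gt 0 a with hpos | hneg
    · rw [abs_of_nonneg hpos] at h
      left
      constructor
      · nlinarith [hb1.1, hb1.2, hu1.1, hu1.2, hv1.1, hv1.2]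
      · nlinarith [hb1.1, hb1.2, hu1.1, hu1.2, hv1.1, hv1.2]
    · rw [abs_of_neg hneg] at h
      right
      constructor
      · nlinarith [hb1.1, hb1.2, hu1.1, hu1.2, hv1.1, hv1.2]
      · nlinarith [hb1.1, hb1.2, hu1.1, hu1.2, hv1.1, hv1.2]
  obtain ⟨z, hz1, hz2⟩ := hiv hz
  refine ⟨z, ?_, hz2⟩
  rw [Set.uIcc_of_le (by linarith), Set.mem_Icc] at hz1
  rw [abs_le]
  constructor
  · linarith [hz1.1]
  · linarith [hz1.2]

/-! Moderate sequences -/

theorem md_abs {S : Scale} {z : ℕ → ℝ} (hz : S.Md z) : S.Md (fun s => |z s|) := by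
  intro ε hε
  filter_upwards [hz ε hε] with s hs
  rwa [abs_abs]

theorem md_sum {S : Scale} {ι : Type} (T : Finset ι) (z : ι → ℕ → ℝ) (hz : ∀ k ∈ T, S.Md (z k)) :
    S.Md (fun s => ∑ k ∈ T, z k s) := by
  classical
  induction T using Finset.induction_on with
  | empty =>
    simp only [Finset.sum_empty]
    exact Scale.Md.const S 0
  | insert a T ha ih =>
    simp only [Finset.sum_insert ha]
    exact Scale.Md.add (hz a (Finset.mem_insert_self a T))
      (ih (fun k hk => hz k (Finset.mem_insert_of_mem hk)))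

theorem md_pow {S : Scale} {z : ℕ → ℝ} (hz : S.Md z) (n : ℕ) : S.Md (fun s => z s ^ n) := by
  induction n with
  | zero =>
    simp only [pow_zero]
    exact Scale.Md.const S 1
  | succ n ih =>
    simp only [pow_succ]
    exact Scale.Md.mul ih hz

theorem taylor_coeff_eq (p : Polynomial ℝ) (D : ℕ) (hp : p.natDegree ≤ D) (y : ℝ) (k : ℕ) :
    (Polynomial.taylor y p).coeff k =
      ∑ j ∈ range (D + 1), ((j.choose k : ℕ) : ℝ) * p.coeff j * y ^ (j - k) := by
  rw [Polynomial.taylor_coeff, Polynomial.hasseDeriv_apply,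
    Polynomial.sum_over_range' _ _ (D + 1) (Nat.lt_succ_of_le hp), Polynomial.eval_finsetSum]
  · apply Finset.sum_congr rfl
    intro j _
    rw [Polynomial.eval_monomial]
  · intro n
    simp

theorem md_taylor {S : Scale} (D : ℕ) (q : ℕ → Polynomial ℝ) (y : ℕ → ℝ)
    (hD : ∀ s, (q s).natDegree ≤ D) (hq : ∀ k, S.Md (fun s => (q s).coeff k)) (hy : S.Md y)
    (k : ℕ) : S.Md (fun s => (Polynomial.taylor (y s) (q s)).coeff k) := by
  have h : (fun s => (Polynomial.taylor (y s) (q s)).coeff k) =
      fun s => ∑ j ∈ range (D + 1), ((j.choose k : ℕ) : ℝ) * (q s).coeff j * y s ^ (j - k) := by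
    funext s
    exact taylor_coeff_eq (q s) D (hD s) (y s) k
  rw [h]
  apply md_sum
  intro j _
  exact Scale.Md.mul (Scale.Md.mul (Scale.Md.const S _) (hq j)) (md_pow hy _)

theorem zer : ZerStmt := by
  intro S D q y hD hq hy hsm hns
  obtain ⟨c, hc, h0⟩ := hsm
  have h1 : ∀ᶠ s in (S.ω : Filter ℕ),
      Real.exp (-(c / 8 * S.R s)) < |(q s).derivative.eval (y s)| := by
    have h2 : ¬ ∀ᶠ s in (S.ω : Filter ℕ),
        |(q s).derivative.eval (y s)| ≤ Real.exp (-(c / 8 * S.R s)) :=
      fun h' => hns ⟨c / 8, by positivity, h'⟩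
    rw [← Ultrafilter.eventually_not] at h2
    filter_upwards [h2] with s hs
    exact lt_of_not_ge hs
  have h2 : S.Md (fun s => ∑ k ∈ range D, |(Polynomial.taylor (y s) (q s)).coeff (k + 2)|) :=
    md_sum _ _ (fun k _ => md_abs (md_taylor D q y hD hq hy (k + 2)))
  classical
  let P : ℕ → Prop := fun s => ∃ z, |z - y s| ≤ Real.exp (-(c / 2 * S.R s)) ∧ (q s).eval z = 0
  refine ⟨fun s => if h : P s then h.choose else y s, ⟨c / 2, by positivity, ?_⟩, ?_⟩
  · filter_upwards with s
    show |(if h : P s then h.choose else y s) - y s| ≤ _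
    split_ifs with h
    · exact h.choose_spec.1
    · rw [sub_self, abs_zero]
      exact (Real.exp_pos _).le
  · filter_upwards [h0, h1, h2 (c / 8) (by positivity), S.ev_R 0,
      S.ev_R (4 / c * (Real.log 2 + 1))] with s g0 g1 g2 g3 g4
    have hP : P s := by
      have hδ0 : 0 < Real.exp (-(c / 2 * S.R s)) := Real.exp_pos _
      apply core (q s) D (hD s) (y s) _ hδ0
      · rw [Real.exp_le_one_iff]
        nlinarith
      · set R := S.R s
        set M := ∑ k ∈ range D, |(Polynomial.taylor (y s) (q s)).coeff (k + 2)| with hM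
        have hM0 : 0 ≤ M := Finset.sum_nonneg (fun _ _ => abs_nonneg _)
        rw [abs_of_nonneg hM0] at g2
        have k1 : Real.exp (-(5 * c / 8 * R)) <
            |(q s).derivative.eval (y s)| * Real.exp (-(c / 2 * R)) := by
          have : Real.exp (-(5 * c / 8 * R)) =
              Real.exp (-(c / 8 * R)) * Real.exp (-(c / 2 * R)) := by
            rw [← Real.exp_add]
            congr 1
            ring
          rw [this]
          exact mul_lt_mul_of_pos_right g1 hδ0
        have k2 : M * Real.exp (-(c / 2 * R)) ^ 2 ≤ Real.exp (-(7 * c / 8 * R)) := by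
          have : Real.exp (-(7 * c / 8 * R)) =
              Real.exp (c / 8 * R) * Real.exp (-(c / 2 * R)) ^ 2 := by
            rw [← Real.exp_nat_mul, ← Real.exp_add]
            congr 1
            push_cast
            ring
          rw [this]
          exact mul_le_mul_of_nonneg_right g2 (by positivity)
        have k3 : |(q s).eval (y s)| ≤ Real.exp (-(7 * c / 8 * R)) := by
          refine g0.trans (Real.exp_le_exp.2 ?_)
          nlinarith
        have k4 : 2 * Real.exp (-(7 * c / 8 * R)) < Real.exp (-(5 * c / 8 * R)) := by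
          have k5 : Real.exp (-(5 * c / 8 * R)) =
              Real.exp (c / 4 * R) * Real.exp (-(7 * c / 8 * R)) := by
            rw [← Real.exp_add]
            congr 1
            ring
          rw [k5]
          apply mul_lt_mul_of_pos_right _ (Real.exp_pos _)
          rw [← Real.log_lt_iff_lt_exp (by norm_num)]
          have k6 : Real.log 2 + 1 ≤ c / 4 * R := by
            have := mul_le_mul_of_nonneg_left g4 (by positivity : (0 : ℝ) ≤ c / 4)
            calc Real.log 2 + 1 = c / 4 * (4 / c * (Real.log 2 + 1)) := by field_simp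
              _ ≤ _ := this
          linarith
        calc |(q s).eval (y s)| + M * Real.exp (-(c / 2 * R)) ^ 2 ≤
            Real.exp (-(7 * c / 8 * R)) + Real.exp (-(7 * c / 8 * R)) := add_le_add k3 k2
          _ = 2 * Real.exp (-(7 * c / 8 * R)) := by ring
          _ < _ := k4
          _ < _ := k1
    show (q s).eval (if h : P s then h.choose else y s) = 0
    rw [dif_pos hP]
    exact hP.choose_spec.2

end Pool.Agent.QSX.H83
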